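import Pool.Agent.Lib.MP_80b30d_gt.PairMain

/-!
MP_80b30d_gt, light sources with flat shadow boundaries: lights collinear with the point of contact.

Let K be a convex body with boundary of class C³. Suppose that for a dense set of boundary points p
the tangent hyperplane at p contains (n ≥ 4) three lights with flat shadow boundaries, two of them on
one line through p, the third one neither on this line nor in the hyperplane of the shadow boundary
of the first, or two pairs of lights on two lines through p, or (n = 3) four pairs of lights on four
lines through p. Then K is an ellipsoid.
-/

namespace Pool.Agent.Results.MP_80b30d_gt.CollinearLights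

open MP80b30d Set

theorem result {n : ℕ} (hn : 3 ≤ n) {K : Set (E n)} (hK : Convex ℝ K) (hc : IsCompact K)
    (hint : (interior K).Nonempty) (h3 : C3Boundary K) {D : Set (E n)}
    (hDK : D ⊆ frontier K) (hD : frontier K ⊆ closure D)
    (hl : ∀ p ∈ D, (n = 3 ∧ PairLights K 4 p) ∨
      (4 ≤ n ∧ (ThreeLights K p ∨ PairLights K 2 p))) : IsEllipsoid K :=
  main_pairs hn hK hc hint h3 hDK hD hl

end Pool.Agent.Results.MP_80b30d_gt.CollinearLights
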