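import Pool.Agent.Lib.MP_80b30d_gt.TMain
import Pool.Agent.Lib.MP_80b30d_gt.NMain

/-!
MP_80b30d_gt, light sources with flat shadow boundaries: the number of lights needed when the
hypothesis is made for a dense set of boundary points only.

First part: for n ≥ 5 and N = n + 2 (n = 4 and N = 7) lights in general linear position at a dense
set of boundary points force K to be an ellipsoid. Second part: these numbers cannot be lowered, not
even when the hypothesis is made at every boundary point outside finitely many hyperplanes and the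
boundary is of class C^∞; in dimension 3 six lights are not enough.
-/

namespace Pool.Agent.Results.MP_80b30d_gt.DenseThreshold

open MP80b30d Set

theorem result :
    (∀ n N : ℕ, 4 ≤ n → n + 2 ≤ N → (n = 4 → 7 ≤ N) → ∀ K : Set (E n), Convex ℝ K →
      IsCompact K → (interior K).Nonempty → C3Boundary K → ∀ D : Set (E n), D ⊆ frontier K →
      frontier K ⊆ closure D → (∀ p ∈ D, NLights K N p) → IsEllipsoid K) ∧
    (∀ n N : ℕ, 3 ≤ n → (N ≤ n + 1 ∨ (n ≤ 4 ∧ N ≤ 6)) →
      ∃ K : Set (E n), Convex ℝ K ∧ IsCompact K ∧ (interior K).Nonempty ∧ SmoothBoundary K ∧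
        ¬ IsEllipsoid K ∧ ∃ (M : ℕ) (L : Fin M → (E n →L[ℝ] ℝ)) (c : Fin M → ℝ),
          (∀ i, L i ≠ 0) ∧ frontier K ⊆ closure {p | p ∈ frontier K ∧ ∀ i, L i p ≠ c i} ∧
          ∀ p ∈ frontier K, (∀ i, L i p ≠ c i) → NLights K N p) :=
  ⟨fun _ _ hn hN hN4 _ hK hc hint h3 _ hDK hD hl =>
    main_N hn hN hN4 hK hc hint h3 hDK hD hl, fun _ _ hn hN => many_lights hn hN⟩

end Pool.Agent.Results.MP_80b30d_gt.DenseThreshold
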