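import Pool.Agent.Lib.MP_80b30d_gt.Main

/-!
MP_80b30d_gt, light sources with flat shadow boundaries: n + 1 lights suffice for n ≥ 4, up to two
extremal incidence patterns.

Let K be a convex body in dimension n ≥ 4 with boundary of class C³. Suppose that for a dense set
of boundary points p there are n + 1 lights in the tangent hyperplane at p, outside K, in general
linear position with respect to p, each with flat shadow boundary, such that fewer than
n² - n - 4 of the ordered pairs (i, j), i ≠ j, satisfy that the light j lies in the (chosen)
hyperplane containing the shadow boundary of the light i. Then K is an ellipsoid.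

(General linear position alone gives at most n² - n - 2 such pairs at a point of positive
curvature; the number n² - n - 2 and n² - n - 4 do occur at the general point of the boundary of
the unit ball of ℓ_p.)
-/

namespace Pool.Agent.Results.MP_80b30d_gt.FewIncidences

open MP80b30d Set

theorem result {n : ℕ} (hn : 4 ≤ n) {K : Set (E n)} (hK : Convex ℝ K) (hc : IsCompact K)
    (hint : (interior K).Nonempty) (h3 : C3Boundary K) {D : Set (E n)}
    (hDK : D ⊆ frontier K) (hD : frontier K ⊆ closure D) (hl : ∀ p ∈ D, Lights K p) :
    IsEllipsoid K :=
  main hn hK hc hint h3 hDK hD hl

end Pool.Agent.Results.MP_80b30d_gt.FewIncidences
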