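import Pool.Agent.Lib.MP_80b30d_gt.TwoMain

/-!
MP_80b30d_gt, light sources with flat shadow boundaries: two lights collinear with the point of
contact are enough.

Let n ≥ 4 and let K be a convex body in dimension n with boundary of class C³. Suppose that for every
boundary point p outside a closed nowhere dense subset of the boundary there are two lights u and
p + r (u - p), r ≠ 1, in the tangent hyperplane at p, outside K, on one line through p, with flat
shadow boundaries. Then K is an ellipsoid. (D is the complement of the exceptional set.)
-/

namespace Pool.Agent.Results.MP_80b30d_gt.TwoLights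

open MP80b30d Set Topology Filter

theorem result {n : ℕ} (hn : 4 ≤ n) {K : Set (E n)} (hK : Convex ℝ K) (hc : IsCompact K)
    (hint : (interior K).Nonempty) (h3 : C3Boundary K) {D : Set (E n)}
    (hDK : D ⊆ frontier K) (hD : frontier K ⊆ closure D)
    (hDo : ∀ p ∈ D, ∀ᶠ y in 𝓝 p, y ∈ frontier K → y ∈ D)
    (hl : ∀ p ∈ D, MP80b30d.TwoLights K p) : IsEllipsoid K :=
  main_two hn hK hc hint h3 hDK hD hDo hl

end Pool.Agent.Results.MP_80b30d_gt.TwoLights
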